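import Pool.Agent.Q260.DJ.Stm
import Pool.Agent.H24R2.JP.B1
import Pool.Agent.H24R2.JP.Stir
import Pool.Agent.H24R2.JP.Zeta
import Pool.Agent.H31R2.DH.BackZeta

set_option autoImplicit false

/-! Job DJ-C0 of helper260: the base function `XX` is in the class `Cl`. -/

namespace Pool.Agent.Q176.DJ

open Complex Filter Topology Metric Set
open Pool.Agent.Q260.DJ
open Pool.Agent.H24R2.JP (HH XX)

/-- `zeta'/zeta` is bounded to the right of `1`. -/
theorem zeta_ld {a : ℝ} (ha : 1 < a) : ∃ C : ℝ, 0 < C ∧ ∀ s : ℂ, a ≤ s.re → riemannZeta s ≠ 0 ∧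
    ‖logDeriv riemannZeta s‖ ≤ C := by
  obtain ⟨r, hr⟩ : ∃ r : ℝ, r = (a - 1) / 2 := ⟨_, rfl⟩
  have hr0 : 0 < r := by rw [hr]; linarith
  obtain ⟨A, hA1, hA⟩ := DH31.zeta_bounds (a := a - r) (by rw [hr]; linarith)
  have hA0 : 0 < A := by linarith
  refine ⟨A / r * A, by positivity, fun s hs => ?_⟩
  have h1 := hA s (by linarith)
  have hz : riemannZeta s ≠ 0 := by
    intro h
    have h2 := h1.2
    rw [h, norm_zero] at h2
    have : 0 < 1 / A := by positivity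
    linarith
  refine ⟨hz, ?_⟩
  have hre : ∀ w : ℂ, ‖w - s‖ ≤ r → a - r ≤ w.re := by
    intro w hw
    have h3 := (abs_le.1 ((Complex.abs_re_le_norm (w - s)).trans hw)).1
    rw [Complex.sub_re] at h3
    linarith
  have hd : ∀ w : ℂ, ‖w - s‖ ≤ r → DifferentiableAt ℂ riemannZeta w := by
    intro w hw
    refine differentiableAt_riemannZeta ?_
    rintro rfl
    have := hre 1 hw
    rw [Complex.one_re, hr] at this
    linarith
  have h4 : ‖deriv riemannZeta s‖ ≤ A / r := by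
    refine Complex.norm_deriv_le_of_forall_mem_sphere_norm_le hr0 ?_ ?_
    · refine DifferentiableOn.diffContOnCl_ball (U := closedBall s r) ?_ (subset_refl _)
      intro w hw
      rw [mem_closedBall, dist_eq_norm] at hw
      exact (hd w hw).differentiableWithinAt
    · intro w hw
      rw [mem_sphere, dist_eq_norm] at hw
      exact (hA w (hre w hw.le)).1
  rw [logDeriv_apply, norm_div, div_le_iff₀ (norm_pos_iff.2 hz)]
  calc ‖deriv riemannZeta s‖ ≤ A / r := h4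
    _ = A / r * A * (1 / A) := by field_simp
    _ ≤ A / r * A * ‖riemannZeta s‖ := mul_le_mul_of_nonneg_left h1.2 (by positivity)

theorem xx_ratio {z : ℂ} (hz : 0 < z.im) : ‖XX z‖ = ‖HH z‖ * ‖riemannZeta (1 / 2 + z)‖ := by
  rw [Pool.Agent.H24R2.JP.zetaS.1 z hz, norm_mul]

theorem t_an (z : ℂ) (_ : 0 < z.im) : AnalyticAt ℂ XX z :=
  Pool.Agent.H24R2.JP.B1h.XX_diff.analyticAt z

theorem re_half' (z : ℂ) : (1 / 2 + z).re = 1 / 2 + z.re := by simp

theorem im_half' (z : ℂ) : (1 / 2 + z).im = z.im := by simp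

theorem t_right (a B : ℝ) (ha : 1 / 2 < a) (_ : B < 40) : ∃ C T0 : ℝ, 0 < C ∧ 3 ≤ T0 ∧
    ∀ z : ℂ, a ≤ z.re → z.re ≤ B → T0 ≤ z.im → XX z ≠ 0 ∧ ‖logDeriv XX z - logDeriv HH z‖ ≤ C := by
  obtain ⟨C, hC, h⟩ := zeta_ld (a := 1 / 2 + a) (by linarith)
  refine ⟨C, 3, hC, le_rfl, fun z h1 h2 h3 => ?_⟩
  have hz : 0 < z.im := by linarith
  obtain ⟨h4, h5⟩ := h (1 / 2 + z) (by rw [re_half']; linarith)
  have hHH := Pool.Agent.H24R2.JP.StirAux.HH_ne hz
  have hx : XX z ≠ 0 := by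
    rw [Pool.Agent.H24R2.JP.zetaS.1 z hz]
    exact mul_ne_zero hHH h4
  refine ⟨hx, ?_⟩
  have hs1 : (1 / 2 + z : ℂ) ≠ 1 := by
    intro h6
    have := congrArg Complex.im h6
    rw [im_half', Complex.one_im] at this
    linarith
  have hda : HasDerivAt (fun w : ℂ => riemannZeta (1 / 2 + w)) (deriv riemannZeta (1 / 2 + z)) z := by
    have h7 := (differentiableAt_riemannZeta hs1).hasDerivAt
    have h8 : HasDerivAt (fun w : ℂ => 1 / 2 + w) 1 z := (hasDerivAt_id z).const_add _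
    have h9 := HasDerivAt.comp z h7 h8
    rw [mul_one] at h9
    exact h9
  have he : XX =ᶠ[𝓝 z] fun w => HH w * riemannZeta (1 / 2 + w) := by
    filter_upwards [Pool.Agent.H24R2.JP.StirAux.upper_open.mem_nhds hz] with w hw
    exact Pool.Agent.H24R2.JP.zetaS.1 w hw
  have h10 : logDeriv XX z = logDeriv HH z + logDeriv riemannZeta (1 / 2 + z) := by
    have e1 : logDeriv XX z = logDeriv (fun w => HH w * riemannZeta (1 / 2 + w)) z := by
      rw [logDeriv_apply, logDeriv_apply, he.deriv_eq, he.eq_of_nhds]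
    rw [e1, logDeriv_mul z hHH h4 (Pool.Agent.H24R2.JP.StirAux.HH_diff hz) hda.differentiableAt]
    congr 1
    rw [logDeriv_apply, hda.deriv, logDeriv_apply]
  rw [h10, add_sub_cancel_left]
  exact h5

theorem t_mass : ∃ (k j : ℕ) (C T0 : ℝ), 1 ≤ C ∧ 3 ≤ T0 ∧ ∀ t : ℝ, T0 ≤ t →
    Real.log t ^ k / t ^ j / C ≤ ‖XX (3 + I * t)‖ / ‖HH (3 + I * t)‖ ∧
    ‖XX (3 + I * t)‖ / ‖HH (3 + I * t)‖ ≤ C * (Real.log t ^ k / t ^ j) := by
  obtain ⟨A, hA1, hA⟩ := DH31.zeta_bounds (a := 3) (by norm_num)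
  refine ⟨0, 0, A, 3, hA1, le_rfl, fun t ht => ?_⟩
  have him : (3 + I * (t : ℂ)).im = t := by simp
  have hre : (3 + I * (t : ℂ)).re = 3 := by simp
  have hz : 0 < (3 + I * (t : ℂ)).im := by rw [him]; linarith
  have hHH := norm_pos_iff.2 (Pool.Agent.H24R2.JP.StirAux.HH_ne hz)
  have h1 := hA (1 / 2 + (3 + I * (t : ℂ))) (by rw [re_half', hre]; norm_num)
  rw [xx_ratio hz, mul_div_cancel_left₀ _ hHH.ne', pow_zero, pow_zero, div_one, mul_one]
  exact ⟨h1.2, h1.1⟩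

theorem t_grow_right : ∃ A : ℝ, 1 ≤ A ∧ ∀ z : ℂ, 0 ≤ z.re → z.re ≤ 40 → 50 ≤ z.im →
    ‖XX z‖ ≤ Real.exp (A * Real.log z.im) * ‖HH z‖ := by
  obtain ⟨K, hK1, hK⟩ := Pool.Agent.H24R2.JP.zetaS.2
  have hK0 : 0 < K := by linarith
  have hlK : 0 ≤ Real.log (2 * K) := Real.log_nonneg (by linarith)
  refine ⟨1 + Real.log (2 * K), by linarith, fun z h1 h2 h3 => ?_⟩
  have hz : 0 < z.im := by linarith
  rw [xx_ratio hz, mul_comm]
  refine mul_le_mul_of_nonneg_right ?_ (norm_nonneg _)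
  have h4 := hK (1 / 2 + z) 1 (by rw [re_half']; linarith) (by rw [im_half']; linarith) le_rfl
  have e1 : ∑ m ∈ Finset.Icc 1 1, ((m : ℕ) : ℂ) ^ (-(1 / 2 + z)) = 1 := by simp
  have e2 : (((1 : ℕ) : ℝ)) ^ (1 - (1 / 2 + z).re) = 1 := by simp
  rw [e1, e2, mul_one] at h4
  have h5 : ‖(1 / 2 + z : ℂ)‖ ≤ 41 + z.im := by
    refine (Complex.norm_le_abs_re_add_abs_im _).trans ?_
    rw [re_half', im_half', abs_of_pos hz, abs_of_nonneg (by linarith)]
    linarith
  have h6 : ‖riemannZeta (1 / 2 + z)‖ ≤ 2 * K * z.im := by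
    have h7 : ‖riemannZeta (1 / 2 + z)‖ ≤ ‖riemannZeta (1 / 2 + z) - 1‖ + 1 := by
      have := norm_add_le (riemannZeta (1 / 2 + z) - 1) 1
      rw [sub_add_cancel, norm_one] at this
      exact this
    have h8 := mul_le_mul_of_nonneg_left h5 hK0.le
    nlinarith
  refine h6.trans ?_
  have hl : 1 ≤ Real.log z.im := by
    rw [Real.le_log_iff_exp_le hz]
    linarith [Real.exp_one_lt_d9]
  have e3 : 2 * K * z.im = Real.exp (Real.log (2 * K) + Real.log z.im) := by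
    rw [Real.exp_add, Real.exp_log (by positivity), Real.exp_log hz]
  rw [e3]
  apply Real.exp_le_exp.2
  nlinarith

theorem t_grow (h2 : S_HB) (a B : ℝ) (ha : -1 < a) (hB : B < 40) : ∃ A T0 : ℝ, 0 < A ∧ 3 ≤ T0 ∧
    ∀ z : ℂ, a ≤ z.re → z.re ≤ B → T0 ≤ z.im →
      ‖XX z‖ ≤ Real.exp (A * Real.log z.im) * ‖HH z‖ := by
  obtain ⟨A, hA1, hA⟩ := t_grow_right
  obtain ⟨C, T0, hC1, hT0, -, hw⟩ := h2
  refine ⟨A + C, max T0 50, by linarith, hT0.trans (le_max_left _ _), fun z g1 g2 g3 => ?_⟩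
  have g4 := (le_max_left T0 50).trans g3
  have g5 := (le_max_right T0 50).trans g3
  have hz : 0 < z.im := by linarith
  have hl : 0 ≤ Real.log z.im := Real.log_nonneg (by linarith)
  rcases le_or_gt 0 z.re with g6 | g6
  · refine (hA z g6 (by linarith) g5).trans ?_
    refine mul_le_mul_of_nonneg_right ?_ (norm_nonneg _)
    apply Real.exp_le_exp.2
    nlinarith
  · obtain ⟨w, hwd⟩ : ∃ w : ℂ, w = -(starRingEnd ℂ) z := ⟨_, rfl⟩
    have wre : w.re = -z.re := by rw [hwd]; simp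
    have wim : w.im = z.im := by rw [hwd]; simp
    have e1 : ‖XX z‖ = ‖XX w‖ := by
      rw [hwd, Pool.Agent.H24R2.JP.B1h.XX_neg, Pool.Agent.H24R2.JP.B1h.XX_conj, Complex.norm_conj]
    have e2 : ‖w - z‖ ≤ 2 := by
      have e3 : w - z = ((-2 * z.re : ℝ) : ℂ) := by
        apply Complex.ext
        · rw [Complex.sub_re, wre, Complex.ofReal_re]; ring
        · rw [Complex.sub_im, wim, Complex.ofReal_im]; ring
      rw [e3, Complex.norm_real, Real.norm_eq_abs, abs_le]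
      constructor <;> linarith
    have e4 := hw z w (by linarith) (by linarith) (by linarith) (by linarith) g4 e2
    have e5 := hA w (by linarith) (by linarith) (by linarith)
    rw [wim] at e5
    rw [e1]
    refine e5.trans ?_
    calc Real.exp (A * Real.log z.im) * ‖HH w‖
        ≤ Real.exp (A * Real.log z.im) * (Real.exp (C * Real.log z.im) * ‖HH z‖) :=
          mul_le_mul_of_nonneg_left e4 (Real.exp_pos _).le
      _ = Real.exp ((A + C) * Real.log z.im) * ‖HH z‖ := by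
          rw [add_mul, Real.exp_add, mul_assoc]

/-- The base function is in the class. -/
theorem t_C0 (_ : S_HA) (h2 : S_HB) : Pool.Agent.Q260.DJ.S_C0 where
  an := t_an
  grow := t_grow h2
  right := t_right
  mass := t_mass

end Pool.Agent.Q176.DJ
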