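import Pool.Agent.Q260.DJ.Stm
import Pool.Agent.Q286.TR.Lind2

set_option autoImplicit false

/-! Job DJ-LI of helper260: a zero free half plane (up to finitely many zeros) gives the Lindelof
hypothesis on the line `1/2`. -/

namespace Pool.Agent.Q176.DJ

open Complex Filter Topology Metric Set
open Pool.Agent.Q260.DJ

theorem small_of_free (hF : AlmostFree riemannZeta (1 / 2)) : Pool.Agent.Q286.TR.Small (1 / 2) := by
  refine Pool.Agent.Q286.TR.small_of_up fun σ₀ hσ₀ ε hε => ?_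
  obtain ⟨σ₁, hσ₁⟩ : ∃ σ₁ : ℝ, σ₁ = min σ₀ (3 / 4) := ⟨_, rfl⟩
  have hσ₁a : 1 / 2 < σ₁ := by rw [hσ₁]; exact lt_min hσ₀ (by norm_num)
  have hσ₁b : σ₁ ≤ 3 / 4 := by rw [hσ₁]; exact min_le_right _ _
  have hσ₁c : σ₁ ≤ σ₀ := by rw [hσ₁]; exact min_le_left _ _
  obtain ⟨d, hd⟩ : ∃ d : ℝ, d = σ₁ - 1 / 2 := ⟨_, rfl⟩
  have hd0 : 0 < d := by linarith
  obtain ⟨δ, hδ⟩ : ∃ δ : ℝ, δ = min (1 / 12) (d / 8) := ⟨_, rfl⟩
  have hδ0 : 0 < δ := by rw [hδ]; exact lt_min (by norm_num) (by linarith)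
  have hδ1 : δ ≤ 1 / 12 := by rw [hδ]; exact min_le_left _ _
  have hδ2 : δ ≤ d / 8 := by rw [hδ]; exact min_le_right _ _
  obtain ⟨η, hη, T0, hback⟩ := DH31.backlund_zeta hδ0 hδ1 hε
  obtain ⟨H, hH⟩ := ((hF (d / 2) (by linarith)).image Complex.im).bddAbove
  have hH' : ∀ s : ℂ, 1 / 2 + d / 2 < s.re → riemannZeta s = 0 → s.im ≤ H := fun s h1 h2 =>
    hH ⟨s, ⟨h1, h2⟩, rfl⟩
  obtain ⟨A, hA1, hA⟩ := DH31.zeta_bounds (a := 1 + δ) (by linarith)
  obtain ⟨T₁, hT₁⟩ : ∃ T₁ : ℝ, T₁ = max (max T0 3) (H + 3) := ⟨_, rfl⟩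
  obtain ⟨B, hB0, hB⟩ := Pool.Agent.Q286.TR.zeta_bdd σ₁ (1 + δ) T₁
  have key : ∀ t : ℝ, T₁ ≤ t → ∀ z ∈ closedBall (⟨1 + δ, t⟩ : ℂ) (1 + δ - σ₁ + δ),
      ‖riemannZeta z‖ ≤ t ^ ε := by
    intro t ht
    have t1 : T0 ≤ t := by
      refine le_trans ?_ ht
      rw [hT₁]
      exact (le_max_left _ _).trans (le_max_left _ _)
    have t2 : 3 ≤ t := by
      refine le_trans ?_ ht
      rw [hT₁]
      exact (le_max_right _ _).trans (le_max_left _ _)
    have t3 : H + 3 ≤ t := by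
      refine le_trans ?_ ht
      rw [hT₁]
      exact le_max_right _ _
    have hlt : 0 < Real.log t := Real.log_pos (by linarith)
    refine hback t t1 t t2 le_rfl σ₁ (by linarith) (by linarith) fun S hS => ?_
    have h0 : ∑ z ∈ S, ((H370.mult riemannZeta z : ℕ) : ℝ) = 0 := by
      refine Finset.sum_eq_zero fun z hz => ?_
      exfalso
      obtain ⟨h1, h2⟩ := hS z hz
      obtain ⟨h3, h4⟩ := DH31.ball_re_im h1
      have h5 := (abs_le.1 h4).1
      have h6 := hH' z (by linarith) h2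
      linarith
    rw [h0]
    positivity
  refine ⟨A + B + 1, fun s hs hi => ?_⟩
  have hp : 1 ≤ s.im ^ ε := Real.one_le_rpow hi hε.le
  rcases le_or_gt (1 + δ) s.re with h1 | h1
  · have h2 := (hA s h1).1
    nlinarith
  · rcases le_or_gt T₁ s.im with h2 | h2
    · have h3 := key s.im h2 s (by
        rw [mem_closedBall, dist_eq_norm]
        have e1 : s - ⟨1 + δ, s.im⟩ = ((s.re - (1 + δ) : ℝ) : ℂ) := by
          apply Complex.ext <;> simp
        rw [e1, Complex.norm_real, Real.norm_eq_abs, abs_le]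
        constructor <;> linarith)
      nlinarith
    · have h3 := hB s (by linarith) h1.le hi h2.le
      nlinarith

/-- A zero free half plane gives the Lindelof hypothesis. -/
theorem t_LI : Pool.Agent.Q260.DJ.S_LI := fun hF =>
  Pool.Agent.Q286.TR.lind_iff.2 (small_of_free hF)

end Pool.Agent.Q176.DJ
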